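import Mathlib

/-!
# MP_405fb9_co: a domination bicritical hypo-unique-domination graph (Q1: yes)

The Wagner graph: vertices `ℤ/8`, adjacent when the difference is `1`, `4` or `7`.
-/

namespace Pool.Agent.Results.MP_405fb9_co.Wagner

open SimpleGraph Finset

variable {V : Type} [Fintype V] [DecidableEq V]

/-- `D` is a dominating set of the subgraph of `G` induced on `U`. -/
def DomIn (G : SimpleGraph V) (U D : Finset V) : Prop :=
  D ⊆ U ∧ ∀ w ∈ U, w ∉ D → ∃ s ∈ D, G.Adj w s

/-- The domination number of the subgraph of `G` induced on `U`. -/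
noncomputable def gammaIn (G : SimpleGraph V) (U : Finset V) : ℕ :=
  sInf {k | ∃ D, DomIn G U D ∧ D.card = k}

/-- `D` is a `γ`-set of the subgraph of `G` induced on `U`. -/
def GammaSet (G : SimpleGraph V) (U D : Finset V) : Prop := DomIn G U D ∧ D.card = gammaIn G U

/-- At least two `γ`-sets, but exactly one after deleting any vertex. -/
def HypoUD (G : SimpleGraph V) : Prop :=
  (∃ D D', D ≠ D' ∧ GammaSet G univ D ∧ GammaSet G univ D') ∧
    ∀ v, ∃! D, GammaSet G (univ.erase v) D

/-- Deleting any two vertices lowers the domination number. -/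
def Bicritical (G : SimpleGraph V) : Prop :=
  ∀ S : Finset V, S.card = 2 → gammaIn G (univ \ S) < gammaIn G univ

def H : SimpleGraph (Fin 8) where
  Adj a b := a - b = 1 ∨ a - b = 4 ∨ a - b = 7
  symm := ⟨by decide⟩
  loopless := ⟨by decide⟩

instance : DecidableRel H.Adj := fun a b =>
  inferInstanceAs (Decidable (a - b = 1 ∨ a - b = 4 ∨ a - b = 7))

instance (U D : Finset (Fin 8)) : Decidable (DomIn H U D) := by unfold DomIn; infer_instance

theorem gamma_eq (U : Finset (Fin 8)) (k : ℕ) (h1 : ∃ D, DomIn H U D ∧ D.card = k)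
    (h2 : ∀ D, DomIn H U D → k ≤ D.card) : gammaIn H U = k :=
  le_antisymm (Nat.sInf_le h1) (le_csInf ⟨k, h1⟩ fun _ ⟨D, hD, e⟩ => e ▸ h2 D hD)

/-- The Wagner graph has eight vertices, is hypo-UD and is domination bicritical. -/
theorem result : ∃ G : SimpleGraph (Fin 8), HypoUD G ∧ Bicritical G := by
  have g3 : gammaIn H univ = 3 :=
    gamma_eq _ _ ⟨{0, 1, 2}, by decide +kernel⟩ (by decide +kernel)
  refine ⟨H, ⟨⟨{0, 1, 2}, {1, 2, 3}, by decide, ?_, ?_⟩, fun v => ?_⟩, fun S hS => ?_⟩
  · rw [GammaSet, g3]; decide +kernel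
  · rw [GammaSet, g3]; decide +kernel
  · have a : ∀ v : Fin 8, DomIn H (univ.erase v) {v + 3, v + 5} ∧
        ({v + 3, v + 5} : Finset (Fin 8)).card = 2 := by decide +kernel
    have b : ∀ (v : Fin 8) D, DomIn H (univ.erase v) D → 2 ≤ D.card ∧
        (D.card = 2 → D = {v + 3, v + 5}) := by decide +kernel
    have g2 := gamma_eq (univ.erase v) 2 ⟨_, a v⟩ fun D hD => (b v D hD).1
    simp only [GammaSet, g2]
    exact ⟨_, a v, fun D hD => (b v D hD.1).2 hD.2⟩
  · obtain ⟨x, y, -, rfl⟩ := card_eq_two.1 hS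
    have a : ∀ x y : Fin 8, ∃ p q : Fin 8, DomIn H (univ \ {x, y}) {p, q} := by decide +kernel
    obtain ⟨p, q, h⟩ := a x y
    rw [g3]
    exact lt_of_le_of_lt (le_trans (Nat.sInf_le (m := ({p, q} : Finset (Fin 8)).card)
      (by exact ⟨_, h, rfl⟩)) card_le_two) (by decide)

end Pool.Agent.Results.MP_405fb9_co.Wagner
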